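import Mathlib

/-!
# Lattices of bounded length: compactness part

Block B of the theorem that for every `n` all but finitely many finite lattices of length at most `n`
have a join-irreducible `j` with `2 |[j, 1]| < |L|`.
-/

universe u

namespace Pool.Agent.H75.BL

open Filter Finset

open scoped Classical

/-- In a lattice with a strict height function bounded by `n`: if `w` is a sequence such that for
every set `I` of earlier indices `v ≤ sup I` or `¬ w i ≤ sup I`, then an element not above `v` is
above at most `n` of the `w i`. -/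
lemma card_below_le {L : Type*} [Lattice L] [OrderBot L] {n m : ℕ} (h : L → ℕ)
    (hs : ∀ a b, a < b → h a < h b) (hn : ∀ a, h a ≤ n) (v : L) (w : ℕ → L)
    (hw : ∀ I ⊆ range m, ∀ i < m, (∀ j ∈ I, j < i) → v ≤ I.sup w ∨ ¬ w i ≤ I.sup w)
    (x : L) (hx : ¬ v ≤ x) : ((range m).filter (fun i => w i ≤ x)).card ≤ n := by
  have key : ∀ I : Finset ℕ, I ⊆ (range m).filter (fun i => w i ≤ x) → I.card ≤ h (I.sup w) := by
    intro I
    refine Finset.induction_on_max I ?_ ?_
    · intro _; simp
    · intro i I hi ih hI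
      have hI' : I ⊆ (range m).filter (fun i => w i ≤ x) :=
        (Finset.subset_insert i I).trans hI
      have h1 := ih hI'
      have hiI : i ∉ I := fun h' => lt_irrefl _ (hi i h')
      have him : i ∈ (range m).filter (fun i => w i ≤ x) := hI (Finset.mem_insert_self i I)
      rw [Finset.mem_filter, Finset.mem_range] at him
      have hsx : I.sup w ≤ x := by
        apply Finset.sup_le
        intro j hj
        exact (Finset.mem_filter.1 (hI' hj)).2
      have h2 : ¬ w i ≤ I.sup w := by
        rcases hw I (fun j hj => (Finset.mem_filter.1 (hI' hj)).1) i him.1 hi with h3 | h3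
        · exact absurd (h3.trans hsx) hx
        · exact h3
      rw [Finset.card_insert_of_notMem hiI, Finset.sup_insert]
      have h4 : I.sup w < w i ⊔ I.sup w := by
        refine lt_of_le_of_ne le_sup_right (fun h5 => h2 ?_)
        rw [h5]
        exact le_sup_left
      have := hs _ _ h4
      omega
  exact (key _ (Finset.Subset.refl _)).trans (hn _)

/-- The counting step. -/
lemma count_step {L : Type*} [Lattice L] [OrderBot L] [Fintype L] {n m : ℕ} (h : L → ℕ)
    (hs : ∀ a b, a < b → h a < h b) (hn : ∀ a, h a ≤ n) (v : L) (w : ℕ → L)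
    (hw : ∀ I ⊆ range m, ∀ i < m, (∀ j ∈ I, j < i) → v ≤ I.sup w ∨ ¬ w i ≤ I.sup w) :
    ∑ i ∈ range m, (univ.filter (fun x : L => w i ≤ x)).card ≤
      m * (univ.filter (fun x : L => v ≤ x)).card + n * Fintype.card L := by
  have h1 : ∀ i ∈ range m, (univ.filter (fun x : L => w i ≤ x)).card ≤
      (univ.filter (fun x : L => v ≤ x)).card +
      ∑ x : L, if (w i ≤ x ∧ ¬ v ≤ x) then 1 else 0 := by
    intro i _
    rw [← Finset.card_filter, ← Finset.card_union_of_disjoint]
    · apply Finset.card_le_card
      intro x hx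
      simp only [Finset.mem_filter, Finset.mem_univ, true_and, Finset.mem_union] at hx ⊢
      tauto
    · rw [Finset.disjoint_left]
      intro x hx hx'
      simp only [Finset.mem_filter, Finset.mem_univ, true_and] at hx hx'
      exact hx'.2 hx
  refine (Finset.sum_le_sum h1).trans ?_
  rw [Finset.sum_add_distrib, Finset.sum_const, Finset.card_range, smul_eq_mul, Finset.sum_comm]
  apply Nat.add_le_add_left
  have h2 : ∀ x : L, (∑ i ∈ range m, if (w i ≤ x ∧ ¬ v ≤ x) then 1 else 0) ≤ n := by
    intro x
    rw [← Finset.card_filter]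
    by_cases hx : v ≤ x
    · rw [Finset.filter_false_of_mem (fun i _ h' => h'.2 hx)]
      simp
    · refine le_trans (Finset.card_le_card ?_) (card_below_le h hs hn v w hw x hx)
      intro i hi
      rw [Finset.mem_filter] at hi ⊢
      exact ⟨hi.1, hi.2.1⟩
  calc ∑ x : L, ∑ i ∈ range m, (if (w i ≤ x ∧ ¬ v ≤ x) then 1 else 0)
      ≤ ∑ _x : L, n := Finset.sum_le_sum (fun x _ => h2 x)
    _ = n * Fintype.card L := by simp [mul_comm]

/-- number of elements above `z` -/
noncomputable def up {L : Type*} [Lattice L] [Fintype L] (z : L) : ℕ :=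
  (univ.filter (fun x : L => z ≤ x)).card

section seq

variable {L : ℕ → Type u} [∀ t, Lattice (L t)] [∀ t, OrderBot (L t)] [∀ t, Fintype (L t)]

/-- sequences that are in the limit below at least half of the elements -/
def Z (U : Ultrafilter ℕ) (z : ∀ t, L t) : Prop :=
  ∀ k : ℕ, ∀ᶠ t in (U : Filter ℕ), k * Fintype.card (L t) ≤ 2 * k * up (z t) + Fintype.card (L t)

/-- finitely many members of `Z` are above all members of `Z` below `v` -/
def Good (U : Ultrafilter ℕ) (v : ∀ t, L t) : Prop :=
  ∃ F : Finset (∀ t, L t), (∀ z ∈ F, Z U z) ∧ ∀ w : ∀ t, L t, Z U w →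
    (∀ᶠ t in (U : Filter ℕ), w t ≤ v t) → ∃ z ∈ F, ∀ᶠ t in (U : Filter ℕ), w t ≤ z t

lemma arith (k m n N V : ℕ) (hk : 0 < k) (hm : m = 4 * (n + 1) * k)
    (h : m * (2 * k) * N ≤ 2 * (2 * k) * (m * V + n * N) + m * N) :
    k * N ≤ 2 * k * V + N := by
  subst hm
  have h8 : 0 < 8 * (n + 1) * k := by positivity
  refine Nat.le_of_mul_le_mul_left ?_ h8
  nlinarith [h, Nat.zero_le (k * N)]

lemma mem_Z (U : Ultrafilter ℕ) {n : ℕ} (h : ∀ t, L t → ℕ)
    (hs : ∀ t a b, a < b → h t a < h t b) (hn : ∀ t a, h t a ≤ n) (v : ∀ t, L t)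
    (H : ∀ m : ℕ, ∃ w : ℕ → ∀ t, L t, (∀ i < m, Z U (w i)) ∧
      ∀ I ⊆ range m, ∀ i < m, (∀ j ∈ I, j < i) →
        (∀ᶠ t in (U : Filter ℕ), v t ≤ I.sup (fun j => w j t)) ∨
        (∀ᶠ t in (U : Filter ℕ), ¬ w i t ≤ I.sup (fun j => w j t))) : Z U v := by
  intro k
  rcases Nat.eq_zero_or_pos k with hk | hk
  · subst hk
    exact Filter.Eventually.of_forall (fun t => by simp)
  obtain ⟨w, hZ, hw⟩ := H (4 * (n + 1) * k)
  set m := 4 * (n + 1) * k with hm
  have e1 : ∀ᶠ t in (U : Filter ℕ), ∀ i ∈ range m,
      2 * k * Fintype.card (L t) ≤ 2 * (2 * k) * up (w i t) + Fintype.card (L t) := by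
    rw [Filter.eventually_all_finset]
    intro i hi
    exact hZ i (Finset.mem_range.1 hi) (2 * k)
  have e2 : ∀ᶠ t in (U : Filter ℕ), ∀ I ∈ (range m).powerset, ∀ i ∈ range m,
      (∀ j ∈ I, j < i) → v t ≤ I.sup (fun j => w j t) ∨ ¬ w i t ≤ I.sup (fun j => w j t) := by
    rw [Filter.eventually_all_finset]
    intro I hI
    rw [Filter.eventually_all_finset]
    intro i hi
    by_cases hIi : ∀ j ∈ I, j < i
    · rcases hw I (Finset.mem_powerset.1 hI) i (Finset.mem_range.1 hi) hIi with h1 | h1
      · exact h1.mono (fun t ht _ => Or.inl ht)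
      · exact h1.mono (fun t ht _ => Or.inr ht)
    · exact Filter.Eventually.of_forall (fun t h' => absurd h' hIi)
  filter_upwards [e1, e2] with t h1 h2
  have h3 := count_step (m := m) (h t) (hs t) (hn t) (v t) (fun i => w i t)
    (fun I hI i hi => h2 I (Finset.mem_powerset.2 hI) i (Finset.mem_range.2 hi))
  have h4 : ∑ i ∈ range m, (2 * k * Fintype.card (L t)) ≤
      ∑ i ∈ range m, (2 * (2 * k) * up (w i t) + Fintype.card (L t)) :=
    Finset.sum_le_sum h1
  rw [Finset.sum_const, Finset.card_range, smul_eq_mul, Finset.sum_add_distrib, Finset.sum_const,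
    Finset.card_range, smul_eq_mul, ← Finset.mul_sum] at h4
  refine arith k m n _ _ hk hm ?_
  have h5 : 2 * (2 * k) * ∑ i ∈ range m, up (w i t) ≤
      2 * (2 * k) * (m * up (v t) + n * Fintype.card (L t)) := Nat.mul_le_mul_left _ h3
  calc m * (2 * k) * Fintype.card (L t) = m * (2 * k * Fintype.card (L t)) := by ring
    _ ≤ _ := h4
    _ ≤ _ := by omega

lemma good (U : Ultrafilter ℕ) {n : ℕ} (h : ∀ t, L t → ℕ)
    (hs : ∀ t a b, a < b → h t a < h t b) (hn : ∀ t a, h t a ≤ n) :
    ∀ k : ℕ, ∀ v : ∀ t, L t, (∀ᶠ t in (U : Filter ℕ), h t (v t) < k) → Good U v := by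
  intro k
  induction k with
  | zero =>
    intro v hv
    exfalso
    obtain ⟨t, ht⟩ := hv.exists
    exact Nat.not_lt_zero _ ht
  | succ k ih =>
    intro v hv
    by_cases hvZ : Z U v
    · exact ⟨{v}, by simpa using hvZ, fun w _ hwv => ⟨v, by simp, hwv⟩⟩
    by_contra hG
    apply hvZ
    apply mem_Z U h hs hn
    -- stronger statement
    suffices H : ∀ m : ℕ, ∃ w : ℕ → ∀ t, L t, (∀ i < m, Z U (w i)) ∧
        (∀ i < m, ∀ᶠ t in (U : Filter ℕ), w i t ≤ v t) ∧
        ∀ I ⊆ range m, ∀ i < m, (∀ j ∈ I, j < i) →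
          (∀ᶠ t in (U : Filter ℕ), v t ≤ I.sup (fun j => w j t)) ∨
          (∀ᶠ t in (U : Filter ℕ), ¬ w i t ≤ I.sup (fun j => w j t)) by
      intro m
      obtain ⟨w, h1, _, h3⟩ := H m
      exact ⟨w, h1, h3⟩
    intro m
    induction m with
    | zero =>
      exact ⟨fun _ _ => ⊥, fun i hi => absurd hi (Nat.not_lt_zero i),
        fun i hi => absurd hi (Nat.not_lt_zero i), fun I _ i hi => absurd hi (Nat.not_lt_zero i)⟩
    | succ m ihm =>
      obtain ⟨w, h1, h2, h3⟩ := ihm
      -- covers of the proper joins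
      have hF : ∀ I ∈ (range m).powerset, ∃ F : Finset (∀ t, L t),
          (∀ᶠ t in (U : Filter ℕ), v t ≤ I.sup (fun j => w j t)) ∨
          ((∀ z ∈ F, Z U z) ∧ ∀ w' : ∀ t, L t, Z U w' →
            (∀ᶠ t in (U : Filter ℕ), w' t ≤ I.sup (fun j => w j t)) →
              ∃ z ∈ F, ∀ᶠ t in (U : Filter ℕ), w' t ≤ z t) := by
        intro I hI
        rw [Finset.mem_powerset] at hI
        by_cases hvI : ∀ᶠ t in (U : Filter ℕ), v t ≤ I.sup (fun j => w j t)
        · exact ⟨∅, Or.inl hvI⟩
        · have hvI' : ∀ᶠ t in (U : Filter ℕ), ¬ v t ≤ I.sup (fun j => w j t) :=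
            Ultrafilter.eventually_not.2 hvI
          have hIv : ∀ᶠ t in (U : Filter ℕ), ∀ j ∈ I, w j t ≤ v t := by
            rw [Filter.eventually_all_finset]
            intro j hj
            exact h2 j (Finset.mem_range.1 (hI hj))
          have : Good U (fun t => I.sup (fun j => w j t)) := by
            apply ih
            filter_upwards [hvI', hIv, hv] with t a1 a2 a3
            have a4 : I.sup (fun j => w j t) ≤ v t := Finset.sup_le a2
            have a5 : I.sup (fun j => w j t) < v t := lt_of_le_not_ge a4 a1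
            have := hs t _ _ a5
            omega
          obtain ⟨F, hF1, hF2⟩ := this
          exact ⟨F, Or.inr ⟨hF1, hF2⟩⟩
      choose! F hF' using hF
      -- the union of the covers does not cover
      by_cases hlow : ∃ w' : ∀ t, L t, Z U w' ∧ (∀ᶠ t in (U : Filter ℕ), w' t ≤ v t) ∧
          ∀ I ∈ (range m).powerset, (∀ᶠ t in (U : Filter ℕ), v t ≤ I.sup (fun j => w j t)) ∨
            ∀ᶠ t in (U : Filter ℕ), ¬ w' t ≤ I.sup (fun j => w j t)
      · obtain ⟨w', hw'Z, hw'v, hw'I⟩ := hlow
        refine ⟨Function.update w m w', ?_, ?_, ?_⟩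
        · intro i hi
          by_cases him : i = m
          · subst him; simpa using hw'Z
          · rw [Function.update_of_ne him]
            exact h1 i (by omega)
        · intro i hi
          by_cases him : i = m
          · subst him; simpa using hw'v
          · rw [Function.update_of_ne him]
            exact h2 i (by omega)
        · intro I hI i hi hIi
          have hIm : ∀ j ∈ I, j ≠ m := fun j hj => by
            have := hIi j hj
            omega
          have hI' : I ⊆ range m := fun j hj => by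
            have := hIi j hj
            rw [Finset.mem_range]
            omega
          have hsup : ∀ t, I.sup (fun j => Function.update w m w' j t) =
              I.sup (fun j => w j t) := by
            intro t
            apply Finset.sup_congr rfl
            intro j hj
            rw [Function.update_of_ne (hIm j hj)]
          simp only [hsup]
          by_cases him : i = m
          · subst him
            rw [Function.update_self]
            exact hw'I I (Finset.mem_powerset.2 hI')
          · rw [Function.update_of_ne him]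
            exact h3 I hI' i (by omega) hIi
      · exfalso
        apply hG
        push Not at hlow
        refine ⟨((range m).powerset.filter (fun I => ¬ ∀ᶠ t in (U : Filter ℕ),
          v t ≤ I.sup (fun j => w j t))).biUnion F, ?_, ?_⟩
        · intro z hz
          rw [Finset.mem_biUnion] at hz
          obtain ⟨I, hI, hzI⟩ := hz
          rw [Finset.mem_filter] at hI
          rcases hF' I hI.1 with h4 | h4
          · exact absurd h4 hI.2
          · exact h4.1 z hzI
        · intro w' hw'Z hw'v
          obtain ⟨I, hI, h5', h7⟩ := hlow w' hw'Z hw'v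
          have h5 : ¬ ∀ᶠ t in (U : Filter ℕ), v t ≤ I.sup (fun j => w j t) :=
            Ultrafilter.eventually_not.1 h5'
          rcases hF' I hI with h4 | h4
          · exact absurd h4 h5
          · obtain ⟨z, hz, hz'⟩ := h4.2 w' hw'Z h7
            refine ⟨z, ?_, hz'⟩
            rw [Finset.mem_biUnion]
            exact ⟨I, Finset.mem_filter.2 ⟨hI, h5⟩, hz⟩

end seq

end Pool.Agent.H75.BL
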