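import Mathlib
import Pool.Agent.H75.BL.Comp

/-!
# Lattices with short chains of frequent joins: compactness part
-/

universe u

namespace Pool.Agent.H75.BL.Freq

open Filter Finset

open scoped Classical

/-- A chain argument. -/
lemma card_le_height {L : Type*} [Lattice L] [OrderBot L] (S : Set L) (hbot : ⊥ ∈ S)
    (hsup : ∀ a ∈ S, ∀ b ∈ S, a ⊔ b ∈ S) (h : L → ℕ)
    (hs : ∀ a ∈ S, ∀ b ∈ S, a < b → h a < h b) (w : ℕ → L) (A : Finset ℕ)
    (hwS : ∀ i ∈ A, w i ∈ S)
    (hA : ∀ J ⊆ A, ∀ i ∈ A, (∀ j ∈ J, j < i) → ¬ w i ≤ J.sup w) : A.card ≤ h (A.sup w) := by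
  have hmem : ∀ I : Finset ℕ, I ⊆ A → I.sup w ∈ S := by
    intro I hI
    exact Finset.sup_mem S hbot (fun a ha b hb => hsup a ha b hb) I w (fun i hi => hwS i (hI hi))
  have key : ∀ I : Finset ℕ, I ⊆ A → I.card ≤ h (I.sup w) := by
    intro I
    refine Finset.induction_on_max I ?_ ?_
    · intro _; simp
    · intro i I hi ih hI
      have hI' : I ⊆ A := (Finset.subset_insert i I).trans hI
      have h1 := ih hI'
      have hiI : i ∉ I := fun h' => lt_irrefl _ (hi i h')
      have him : i ∈ A := hI (Finset.mem_insert_self i I)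
      have h2 : ¬ w i ≤ I.sup w := hA I hI' i him hi
      rw [Finset.card_insert_of_notMem hiI, Finset.sup_insert]
      have h4 : I.sup w < w i ⊔ I.sup w := by
        refine lt_of_le_of_ne le_sup_right (fun h5 => h2 ?_)
        rw [h5]
        exact le_sup_left
      have := hs _ (hmem I hI') _ (hsup _ (hwS i him) _ (hmem I hI')) h4
      omega
  exact key A (Finset.Subset.refl _)

/-- The counting step. -/
lemma count_step {L : Type*} [Lattice L] [OrderBot L] [Fintype L] {n m : ℕ} (S : Set L)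
    (hbot : ⊥ ∈ S) (hsup : ∀ a ∈ S, ∀ b ∈ S, a ⊔ b ∈ S) (h : L → ℕ)
    (hs : ∀ a ∈ S, ∀ b ∈ S, a < b → h a < h b) (v : L) (hn : ∀ a ∈ S, a ≤ v → h a ≤ n)
    (w : ℕ → L) (hwS : ∀ i < m, w i ∈ S) (hwv : ∀ i < m, w i ≤ v)
    (hw : ∀ I ⊆ range m, ∀ i < m, (∀ j ∈ I, j < i) → v ≤ I.sup w ∨ ¬ w i ≤ I.sup w) :
    ∑ i ∈ range m, up (w i) ≤ m * up v + n * Fintype.card L := by
  have h1 : ∀ i ∈ range m, up (w i) ≤ up v +
      ∑ x : L, if (w i ≤ x ∧ ¬ v ≤ x) then 1 else 0 := by
    intro i _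
    rw [← Finset.card_filter, up, up, ← Finset.card_union_of_disjoint]
    · apply Finset.card_le_card
      intro x hx
      simp only [Finset.mem_filter, Finset.mem_univ, true_and, Finset.mem_union] at hx ⊢
      tauto
    · rw [Finset.disjoint_left]
      intro x hx hx'
      simp only [Finset.mem_filter, Finset.mem_univ, true_and] at hx hx'
      exact hx'.2 hx
  refine (Finset.sum_le_sum h1).trans ?_
  rw [Finset.sum_add_distrib, Finset.sum_const, Finset.card_range, smul_eq_mul, Finset.sum_comm]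
  apply Nat.add_le_add_left
  have h2 : ∀ x : L, (∑ i ∈ range m, if (w i ≤ x ∧ ¬ v ≤ x) then 1 else 0) ≤ n := by
    intro x
    rw [← Finset.card_filter]
    by_cases hx : v ≤ x
    · rw [Finset.filter_false_of_mem (fun i _ h' => h'.2 hx)]
      simp
    · set A := (range m).filter (fun i => w i ≤ x ∧ ¬ v ≤ x) with hA
      have hAm : ∀ i ∈ A, i < m := fun i hi => Finset.mem_range.1 (Finset.mem_filter.1 hi).1
      refine le_trans (card_le_height S hbot hsup h hs w A (fun i hi => hwS i (hAm i hi)) ?_) ?_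
      · intro J hJ i hi hJi
        rcases hw J (fun j hj => Finset.mem_range.2 (hAm j (hJ hj))) i (hAm i hi) hJi with h3 | h3
        · exfalso
          apply hx
          exact h3.trans (Finset.sup_le fun j hj => (Finset.mem_filter.1 (hJ hj)).2.1)
        · exact h3
      · refine hn _ ?_ (Finset.sup_le fun j hj => hwv j (hAm j hj))
        exact Finset.sup_mem S hbot (fun a ha b hb => hsup a ha b hb) A w
          (fun i hi => hwS i (hAm i hi))
  calc ∑ x : L, ∑ i ∈ range m, (if (w i ≤ x ∧ ¬ v ≤ x) then 1 else 0)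
      ≤ ∑ _x : L, n := Finset.sum_le_sum (fun x _ => h2 x)
    _ = n * Fintype.card L := by simp [mul_comm]

lemma up_anti {L : Type*} [Lattice L] [Fintype L] {a b : L} (hab : a ≤ b) : up b ≤ up a := by
  apply Finset.card_le_card
  intro x hx
  rw [Finset.mem_filter] at hx ⊢
  exact ⟨hx.1, hab.trans hx.2⟩

/-- Counting `k`-subsets of the `w i` below an element. -/
lemma sum_choose {L : Type*} [Lattice L] [OrderBot L] [Fintype L] (m k : ℕ) (w : ℕ → L) :
    ∑ x : L, (((range m).filter (fun i => w i ≤ x)).card.choose k) =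
      ∑ I ∈ (range m).powersetCard k, up (I.sup w) := by
  have h1 : ∀ x : L, (((range m).filter (fun i => w i ≤ x)).card.choose k) =
      (((range m).powersetCard k).filter (fun I => I.sup w ≤ x)).card := by
    intro x
    rw [← Finset.card_powersetCard]
    congr 1
    ext I
    simp only [Finset.mem_powersetCard, Finset.mem_filter, Finset.sup_le_iff]
    constructor
    · rintro ⟨h2, h3⟩
      exact ⟨⟨h2.trans (Finset.filter_subset _ _), h3⟩,
        fun i hi => (Finset.mem_filter.1 (h2 hi)).2⟩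
    · rintro ⟨⟨h2, h3⟩, h4⟩
      exact ⟨fun i hi => Finset.mem_filter.2 ⟨h2 hi, h4 i hi⟩, h3⟩
  simp_rw [h1, up, Finset.card_filter]
  exact Finset.sum_comm

/-- The counting step at the top. -/
lemma top_count {L : Type*} [Lattice L] [OrderBot L] [Fintype L] [Nonempty L] (m n : ℕ)
    (w : ℕ → L) (B a : ℝ) (ha : 0 ≤ a)
    (hB : ∀ I ⊆ range m, I.card = n + 1 → (up (I.sup w) : ℝ) ≤ B * Fintype.card L)
    (hw : (a + n) * Fintype.card L ≤ ∑ i ∈ range m, (up (w i) : ℝ)) (hB0 : 0 ≤ B) :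
    a ^ (n + 1) ≤ B * (m : ℝ) ^ (n + 1) := by
  have hN : (0 : ℝ) < Fintype.card L := by exact_mod_cast Fintype.card_pos
  set c : L → ℕ := fun x => ((range m).filter (fun i => w i ≤ x)).card with hc
  -- upper bound
  have h1 : (∑ x : L, ((c x).choose (n + 1) : ℝ)) ≤
      (m.choose (n + 1) : ℝ) * (B * Fintype.card L) := by
    have := sum_choose m (n + 1) w
    have h2 : (∑ x : L, ((c x).choose (n + 1) : ℝ)) =
        ∑ I ∈ (range m).powersetCard (n + 1), (up (I.sup w) : ℝ) := by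
      exact_mod_cast this
    rw [h2]
    refine (Finset.sum_le_sum (fun I hI => hB I (Finset.mem_powersetCard.1 hI).1
      (Finset.mem_powersetCard.1 hI).2)).trans ?_
    rw [Finset.sum_const, Finset.card_powersetCard, Finset.card_range, nsmul_eq_mul]
  have h3 : ∀ x : L, (((c x - n : ℕ) : ℝ)) ^ (n + 1) ≤
      ((n + 1).factorial : ℝ) * ((c x).choose (n + 1) : ℝ) := by
    intro x
    have h4 := Nat.pow_sub_le_descFactorial (c x) (n + 1)
    rw [Nat.descFactorial_eq_factorial_mul_choose, Nat.add_sub_add_right] at h4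
    exact_mod_cast h4
  have h5 : ((n + 1).factorial : ℝ) * (m.choose (n + 1) : ℝ) ≤ (m : ℝ) ^ (n + 1) := by
    have := Nat.descFactorial_le_pow m (n + 1)
    rw [Nat.descFactorial_eq_factorial_mul_choose] at this
    exact_mod_cast this
  have h6 : ∑ x : L, (((c x - n : ℕ) : ℝ)) ^ (n + 1) ≤
      (m : ℝ) ^ (n + 1) * (B * Fintype.card L) := by
    calc ∑ x : L, (((c x - n : ℕ) : ℝ)) ^ (n + 1)
        ≤ ∑ x : L, ((n + 1).factorial : ℝ) * ((c x).choose (n + 1) : ℝ) :=
          Finset.sum_le_sum (fun x _ => h3 x)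
      _ = ((n + 1).factorial : ℝ) * ∑ x : L, ((c x).choose (n + 1) : ℝ) := by
          rw [Finset.mul_sum]
      _ ≤ ((n + 1).factorial : ℝ) * ((m.choose (n + 1) : ℝ) * (B * Fintype.card L)) :=
          mul_le_mul_of_nonneg_left h1 (by positivity)
      _ = (((n + 1).factorial : ℝ) * (m.choose (n + 1) : ℝ)) * (B * Fintype.card L) := by ring
      _ ≤ _ := mul_le_mul_of_nonneg_right h5 (by positivity)
  -- lower bound
  have h7 : ∑ i ∈ range m, (up (w i) : ℝ) = ∑ x : L, (c x : ℝ) := by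
    have : ∑ i ∈ range m, up (w i) = ∑ x : L, c x := by
      simp_rw [hc, up, Finset.card_filter]
      exact Finset.sum_comm
    exact_mod_cast this
  have h8 : a * Fintype.card L ≤ ∑ x : L, ((c x - n : ℕ) : ℝ) := by
    have h9 : ∀ x : L, (c x : ℝ) ≤ ((c x - n : ℕ) : ℝ) + n := by
      intro x
      have : c x ≤ (c x - n) + n := by omega
      exact_mod_cast this
    have h10 : ∑ x : L, (c x : ℝ) ≤ ∑ x : L, (((c x - n : ℕ) : ℝ) + n) :=
      Finset.sum_le_sum (fun x _ => h9 x)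
    rw [Finset.sum_add_distrib, Finset.sum_const, nsmul_eq_mul, Finset.card_univ, ← h7] at h10
    linarith
  have h11 := pow_sum_div_card_le_sum_pow (s := (univ : Finset L))
    (f := fun x => ((c x - n : ℕ) : ℝ)) (fun x _ => by positivity) n
  rw [Finset.card_univ] at h11
  have h12 : (a * Fintype.card L) ^ (n + 1) / (Fintype.card L : ℝ) ^ n ≤
      (m : ℝ) ^ (n + 1) * (B * Fintype.card L) := by
    refine le_trans ?_ (h11.trans h6)
    gcongr
  have h13 : (a * Fintype.card L) ^ (n + 1) / (Fintype.card L : ℝ) ^ n =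
      a ^ (n + 1) * Fintype.card L := by
    field_simp
    ring
  rw [h13] at h12
  have h14 : a ^ (n + 1) * Fintype.card L ≤ (B * (m : ℝ) ^ (n + 1)) * Fintype.card L := by
    linarith
  exact le_of_mul_le_mul_right h14 hN

section seq

variable {L : ℕ → Type u} [∀ t, Lattice (L t)] [∀ t, OrderBot (L t)] [∀ t, Fintype (L t)]

lemma mem_Z (U : Ultrafilter ℕ) {n : ℕ} (S : ∀ t, Set (L t)) (hbot : ∀ t, ⊥ ∈ S t)
    (hsup : ∀ t, ∀ a ∈ S t, ∀ b ∈ S t, a ⊔ b ∈ S t) (h : ∀ t, L t → ℕ)
    (hs : ∀ t, ∀ a ∈ S t, ∀ b ∈ S t, a < b → h t a < h t b) (v : ∀ t, L t)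
    (hn : ∀ᶠ t in (U : Filter ℕ), ∀ a ∈ S t, a ≤ v t → h t a ≤ n)
    (H : ∀ m : ℕ, ∃ w : ℕ → ∀ t, L t, (∀ i < m, Z U (w i) ∧ (∀ t, w i t ∈ S t) ∧
        ∀ᶠ t in (U : Filter ℕ), w i t ≤ v t) ∧
      ∀ I ⊆ range m, ∀ i < m, (∀ j ∈ I, j < i) →
        (∀ᶠ t in (U : Filter ℕ), v t ≤ I.sup (fun j => w j t)) ∨
        (∀ᶠ t in (U : Filter ℕ), ¬ w i t ≤ I.sup (fun j => w j t))) : Z U v := by
  intro k
  rcases Nat.eq_zero_or_pos k with hk | hk
  · subst hk
    exact Filter.Eventually.of_forall (fun t => by simp)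
  obtain ⟨w, hZ, hw⟩ := H (4 * (n + 1) * k)
  set m := 4 * (n + 1) * k with hm
  have e1 : ∀ᶠ t in (U : Filter ℕ), ∀ i ∈ range m,
      (2 * k * Fintype.card (L t) ≤ 2 * (2 * k) * up (w i t) + Fintype.card (L t)) ∧
        w i t ≤ v t := by
    rw [Filter.eventually_all_finset]
    intro i hi
    exact ((hZ i (Finset.mem_range.1 hi)).1 (2 * k)).and (hZ i (Finset.mem_range.1 hi)).2.2
  have e2 : ∀ᶠ t in (U : Filter ℕ), ∀ I ∈ (range m).powerset, ∀ i ∈ range m,
      (∀ j ∈ I, j < i) → v t ≤ I.sup (fun j => w j t) ∨ ¬ w i t ≤ I.sup (fun j => w j t) := by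
    rw [Filter.eventually_all_finset]
    intro I hI
    rw [Filter.eventually_all_finset]
    intro i hi
    by_cases hIi : ∀ j ∈ I, j < i
    · rcases hw I (Finset.mem_powerset.1 hI) i (Finset.mem_range.1 hi) hIi with h1 | h1
      · exact h1.mono (fun t ht _ => Or.inl ht)
      · exact h1.mono (fun t ht _ => Or.inr ht)
    · exact Filter.Eventually.of_forall (fun t h' => absurd h' hIi)
  filter_upwards [e1, e2, hn] with t h1 h2 hn'
  have h3 := count_step (m := m) (n := n) (S t) (hbot t) (hsup t) (h t) (hs t) (v t) hn'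
    (fun i => w i t) (fun i hi => (hZ i hi).2.1 t) (fun i hi => (h1 i (Finset.mem_range.2 hi)).2)
    (fun I hI i hi => h2 I (Finset.mem_powerset.2 hI) i (Finset.mem_range.2 hi))
  have h4 : ∑ i ∈ range m, (2 * k * Fintype.card (L t)) ≤
      ∑ i ∈ range m, (2 * (2 * k) * up (w i t) + Fintype.card (L t)) :=
    Finset.sum_le_sum (fun i hi => (h1 i hi).1)
  rw [Finset.sum_const, Finset.card_range, smul_eq_mul, Finset.sum_add_distrib, Finset.sum_const,
    Finset.card_range, smul_eq_mul, ← Finset.mul_sum] at h4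
  refine arith k m n _ _ hk hm ?_
  have h5 : 2 * (2 * k) * ∑ i ∈ range m, up (w i t) ≤
      2 * (2 * k) * (m * up (v t) + n * Fintype.card (L t)) := Nat.mul_le_mul_left _ h3
  calc m * (2 * k) * Fintype.card (L t) = m * (2 * k * Fintype.card (L t)) := by ring
    _ ≤ _ := h4
    _ ≤ _ := by omega

/-- Construction of a sequence which is not covered by the covers of the joins of earlier terms. -/
lemma build (U : Ultrafilter ℕ) (Q P : (∀ t, L t) → Prop)
    (hP : ∀ u, P u → ∃ F : Finset (∀ t, L t), (∀ z ∈ F, Z U z) ∧ ∀ w, Q w →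
      (∀ᶠ t in (U : Filter ℕ), w t ≤ u t) → ∃ z ∈ F, ∀ᶠ t in (U : Filter ℕ), w t ≤ z t)
    (hno : ¬ ∃ F : Finset (∀ t, L t), (∀ z ∈ F, Z U z) ∧ ∀ w, Q w →
      ∃ z ∈ F, ∀ᶠ t in (U : Filter ℕ), w t ≤ z t) (m : ℕ) :
    ∃ w : ℕ → ∀ t, L t, (∀ i < m, Q (w i)) ∧
      ∀ I ⊆ range m, ∀ i < m, (∀ j ∈ I, j < i) →
        (¬ P (fun t => I.sup (fun j => w j t))) ∨
        (∀ᶠ t in (U : Filter ℕ), ¬ w i t ≤ I.sup (fun j => w j t)) := by
  induction m with
  | zero =>
    exact ⟨fun _ _ => ⊥, fun i hi => absurd hi (Nat.not_lt_zero i),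
      fun I _ i hi => absurd hi (Nat.not_lt_zero i)⟩
  | succ m ihm =>
    obtain ⟨w, h1, h3⟩ := ihm
    choose! F hF' using hP
    by_cases hlow : ∃ w' : ∀ t, L t, Q w' ∧
        ∀ I ∈ (range m).powerset, (¬ P (fun t => I.sup (fun j => w j t))) ∨
          ∀ᶠ t in (U : Filter ℕ), ¬ w' t ≤ I.sup (fun j => w j t)
    · obtain ⟨w', hw'Q, hw'I⟩ := hlow
      refine ⟨Function.update w m w', ?_, ?_⟩
      · intro i hi
        by_cases him : i = m
        · subst him; simpa using hw'Q
        · rw [Function.update_of_ne him]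
          exact h1 i (by omega)
      · intro I hI i hi hIi
        have hIm : ∀ j ∈ I, j ≠ m := fun j hj => by
          have := hIi j hj
          omega
        have hI' : I ⊆ range m := fun j hj => by
          have := hIi j hj
          rw [Finset.mem_range]
          omega
        have hsup : ∀ t, I.sup (fun j => Function.update w m w' j t) =
            I.sup (fun j => w j t) := by
          intro t
          apply Finset.sup_congr rfl
          intro j hj
          rw [Function.update_of_ne (hIm j hj)]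
        simp only [hsup]
        by_cases him : i = m
        · subst him
          rw [Function.update_self]
          exact hw'I I (Finset.mem_powerset.2 hI')
        · rw [Function.update_of_ne him]
          exact h3 I hI' i (by omega) hIi
    · exfalso
      apply hno
      refine ⟨((range m).powerset.filter (fun I => P (fun t => I.sup (fun j => w j t)))).biUnion
        (fun I => F (fun t => I.sup (fun j => w j t))), ?_, ?_⟩
      · intro z hz
        rw [Finset.mem_biUnion] at hz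
        obtain ⟨I, hI, hzI⟩ := hz
        rw [Finset.mem_filter] at hI
        exact (hF' _ hI.2).1 z hzI
      · intro w' hw'Q
        by_contra hno'
        apply hlow
        refine ⟨w', hw'Q, fun I hI => ?_⟩
        by_cases hPI : P (fun t => I.sup (fun j => w j t))
        · right
          by_contra h7
          rw [Ultrafilter.eventually_not, not_not] at h7
          obtain ⟨z, hz, hz'⟩ := (hF' _ hPI).2 w' hw'Q h7
          apply hno'
          refine ⟨z, ?_, hz'⟩
          rw [Finset.mem_biUnion]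
          exact ⟨I, Finset.mem_filter.2 ⟨hI, hPI⟩, hz⟩
        · exact Or.inl hPI

/-- finitely many members of `Z` are above all `S`-valued members of `Z` below `v` -/
def GoodS (U : Ultrafilter ℕ) (S : ∀ t, Set (L t)) (v : ∀ t, L t) : Prop :=
  ∃ F : Finset (∀ t, L t), (∀ z ∈ F, Z U z) ∧ ∀ w : ∀ t, L t, (∀ t, w t ∈ S t) → Z U w →
    (∀ᶠ t in (U : Filter ℕ), w t ≤ v t) → ∃ z ∈ F, ∀ᶠ t in (U : Filter ℕ), w t ≤ z t

lemma goodS (U : Ultrafilter ℕ) {n : ℕ} (c : ℝ) (S : ∀ t, Set (L t)) (hbot : ∀ t, ⊥ ∈ S t)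
    (hsup : ∀ t, ∀ a ∈ S t, ∀ b ∈ S t, a ⊔ b ∈ S t) (h : ∀ t, L t → ℕ)
    (hs : ∀ t, ∀ a ∈ S t, ∀ b ∈ S t, a < b → h t a < h t b)
    (hn : ∀ t, ∀ a ∈ S t, c * Fintype.card (L t) ≤ (up a : ℝ) → h t a ≤ n) :
    ∀ k : ℕ, ∀ v : ∀ t, L t, (∀ t, v t ∈ S t) →
      (∀ᶠ t in (U : Filter ℕ), c * Fintype.card (L t) ≤ (up (v t) : ℝ)) →
      (∀ᶠ t in (U : Filter ℕ), h t (v t) < k) → GoodS U S v := by
  intro k
  induction k with
  | zero =>
    intro v _ _ hv
    exfalso
    obtain ⟨t, ht⟩ := hv.exists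
    exact Nat.not_lt_zero _ ht
  | succ k ih =>
    intro v hvS hvc hv
    by_cases hvZ : Z U v
    · exact ⟨{v}, by simpa using hvZ, fun w _ _ hwv => ⟨v, by simp, hwv⟩⟩
    by_contra hG
    apply hvZ
    have hn' : ∀ᶠ t in (U : Filter ℕ), ∀ a ∈ S t, a ≤ v t → h t a ≤ n := by
      filter_upwards [hvc] with t ht a ha hav
      refine hn t a ha (ht.trans ?_)
      exact_mod_cast up_anti hav
    refine mem_Z U S hbot hsup h hs v hn' (fun m => ?_)
    obtain ⟨w, h1, h2⟩ := build U
      (fun w => (∀ t, w t ∈ S t) ∧ Z U w ∧ ∀ᶠ t in (U : Filter ℕ), w t ≤ v t)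
      (fun u => (¬ ∀ᶠ t in (U : Filter ℕ), v t ≤ u t) ∧ (∀ t, u t ∈ S t) ∧
        ∀ᶠ t in (U : Filter ℕ), u t ≤ v t)
      (by
        rintro u ⟨hu1, hu2, hu3⟩
        have hu1' := Ultrafilter.eventually_not.2 hu1
        have : GoodS U S u := by
          refine ih u hu2 ?_ ?_
          · filter_upwards [hvc, hu3] with t ht1 ht2
            refine ht1.trans ?_
            exact_mod_cast up_anti ht2
          · filter_upwards [hu1', hu3, hv] with t ht1 ht2 ht3
            have := hs t _ (hu2 t) _ (hvS t) (lt_of_le_not_ge ht2 ht1)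
            omega
        obtain ⟨F, hF1, hF2⟩ := this
        exact ⟨F, hF1, fun w hw hwu => hF2 w hw.1 hw.2.1 hwu⟩)
      (by
        rintro ⟨F, hF1, hF2⟩
        exact hG ⟨F, hF1, fun w hw1 hw2 hw3 => hF2 w ⟨hw1, hw2, hw3⟩⟩) m
    refine ⟨w, fun i hi => ⟨(h1 i hi).2.1, (h1 i hi).1, (h1 i hi).2.2⟩, ?_⟩
    intro I hI i hi hIi
    refine (h2 I hI i hi hIi).imp (fun hnP => ?_) id
    by_contra hcon
    apply hnP
    refine ⟨hcon, fun t => ?_, ?_⟩
    · exact Finset.sup_mem (S t) (hbot t) (fun a ha b hb => hsup t a ha b hb) I _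
        (fun j hj => (h1 j (Finset.mem_range.1 (hI hj))).1 t)
    · have : ∀ᶠ t in (U : Filter ℕ), ∀ j ∈ I, w j t ≤ v t := by
        rw [Filter.eventually_all_finset]
        intro j hj
        exact (h1 j (Finset.mem_range.1 (hI hj))).2.2
      filter_upwards [this] with t ht
      exact Finset.sup_le ht

lemma exists_delta {n : ℕ} {c : ℝ} (hc : c < (1 / 2) ^ (n + 1)) :
    ∃ δ : ℝ, 0 < δ ∧ δ < 1 / 2 ∧ c < (1 / 2 - δ) ^ (n + 1) := by
  have hcont : Continuous (fun x : ℝ => (1 / 2 - x) ^ (n + 1)) := by fun_prop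
  have h0 : ∀ᶠ x in nhds (0 : ℝ), c < (1 / 2 - x) ^ (n + 1) := by
    have := hcont.tendsto 0
    exact this.eventually (lt_mem_nhds (by simpa using hc))
  have h1 : ∀ᶠ x in nhds (0 : ℝ), x < 1 / 2 := gt_mem_nhds (by norm_num)
  have h2 : ∀ᶠ x in nhdsWithin (0 : ℝ) (Set.Ioi 0), 0 < x ∧ x < 1 / 2 ∧
      c < (1 / 2 - x) ^ (n + 1) := by
    filter_upwards [self_mem_nhdsWithin, nhdsWithin_le_nhds h0, nhdsWithin_le_nhds h1]
      with x hx1 hx2 hx3
    exact ⟨hx1, hx3, hx2⟩
  exact h2.exists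

lemma top (U : Ultrafilter ℕ) {n : ℕ} (c : ℝ) (hc : c < (1 / 2) ^ (n + 1))
    (S : ∀ t, Set (L t)) (hbot : ∀ t, ⊥ ∈ S t)
    (hsup : ∀ t, ∀ a ∈ S t, ∀ b ∈ S t, a ⊔ b ∈ S t) (h : ∀ t, L t → ℕ)
    (hs : ∀ t, ∀ a ∈ S t, ∀ b ∈ S t, a < b → h t a < h t b)
    (hn : ∀ t, ∀ a ∈ S t, c * Fintype.card (L t) ≤ (up a : ℝ) → h t a ≤ n) :
    ∃ F : Finset (∀ t, L t), (∀ z ∈ F, Z U z) ∧ ∀ w : ∀ t, L t, ((∀ t, w t ∈ S t) ∧ Z U w) →
      ∃ z ∈ F, ∀ᶠ t in (U : Filter ℕ), w t ≤ z t := by
  by_contra hno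
  obtain ⟨δ, hδ0, hδ1, hδ2⟩ := exists_delta hc
  obtain ⟨K, hK⟩ := exists_nat_gt (1 / δ)
  obtain ⟨m, hm⟩ := exists_nat_gt (2 * n / δ)
  have hm0 : (0 : ℝ) < m := lt_of_le_of_lt (by positivity) hm
  have hK0 : (0 : ℝ) < K := lt_of_le_of_lt (by positivity) hK
  obtain ⟨w, h1, h2⟩ := build U (fun w => (∀ t, w t ∈ S t) ∧ Z U w)
    (fun u => (∀ t, u t ∈ S t) ∧
      ∀ᶠ t in (U : Filter ℕ), c * Fintype.card (L t) ≤ (up (u t) : ℝ))
    (by
      rintro u ⟨hu1, hu2⟩
      obtain ⟨F, hF1, hF2⟩ := goodS U c S hbot hsup h hs hn (n + 1) u hu1 hu2 (by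
        filter_upwards [hu2] with t ht
        exact Nat.lt_succ_of_le (hn t _ (hu1 t) ht))
      exact ⟨F, hF1, fun w hw hwu => hF2 w hw.1 hw.2 hwu⟩)
    hno m
  have e1 : ∀ᶠ t in (U : Filter ℕ), ∀ i ∈ range m,
      K * Fintype.card (L t) ≤ 2 * K * up (w i t) + Fintype.card (L t) := by
    rw [Filter.eventually_all_finset]
    intro i hi
    exact (h1 i (Finset.mem_range.1 hi)).2 K
  have e2 : ∀ᶠ t in (U : Filter ℕ), ∀ I ∈ (range m).powerset, ∀ i ∈ range m,
      (∀ j ∈ I, j < i) → ¬ c * Fintype.card (L t) ≤ (up (I.sup (fun j => w j t)) : ℝ) ∨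
        ¬ w i t ≤ I.sup (fun j => w j t) := by
    rw [Filter.eventually_all_finset]
    intro I hI
    rw [Filter.eventually_all_finset]
    intro i hi
    rw [Finset.mem_powerset] at hI
    by_cases hIi : ∀ j ∈ I, j < i
    · rcases h2 I hI i (Finset.mem_range.1 hi) hIi with h3 | h3
      · have h4 : ¬ ∀ᶠ t in (U : Filter ℕ),
            c * Fintype.card (L t) ≤ (up (I.sup (fun j => w j t)) : ℝ) := by
          intro h5
          apply h3
          exact ⟨fun t => Finset.sup_mem (S t) (hbot t) (fun a ha b hb => hsup t a ha b hb) I _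
            (fun j hj => (h1 j (Finset.mem_range.1 (hI hj))).1 t), h5⟩
        exact (Ultrafilter.eventually_not.2 h4).mono (fun t ht _ => Or.inl ht)
      · exact h3.mono (fun t ht _ => Or.inr ht)
    · exact Filter.Eventually.of_forall (fun t h' => absurd h' hIi)
  obtain ⟨t, ht1, ht2⟩ := (e1.and e2).exists
  have hne : Nonempty (L t) := ⟨⊥⟩
  have hNp : (0 : ℝ) < Fintype.card (L t) := by exact_mod_cast Fintype.card_pos
  have hBpos : max c 0 < (1 / 2 - δ) ^ (n + 1) := by
    apply max_lt hδ2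
    have : (0 : ℝ) < 1 / 2 - δ := by linarith
    positivity
  have key := top_count m n (fun i => w i t) (max c 0) ((1 / 2 - δ) * m)
    (by
      have : (0 : ℝ) ≤ 1 / 2 - δ := by linarith
      positivity)
    (by
      intro I hI hIc
      by_contra hcon
      have hcI : c * Fintype.card (L t) ≤ (up (I.sup (fun j => w j t)) : ℝ) := by
        have : c * Fintype.card (L t) ≤ max c 0 * Fintype.card (L t) :=
          mul_le_mul_of_nonneg_right (le_max_left _ _) hNp.le
        exact this.trans (not_le.1 hcon).le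
      have h5 := card_le_height (S t) (hbot t) (hsup t) (h t) (hs t) (fun j => w j t) I
        (fun i hi => (h1 i (Finset.mem_range.1 (hI hi))).1 t)
        (by
          intro J hJ i hi hJi
          rcases ht2 J (Finset.mem_powerset.2 (hJ.trans hI)) i (hI hi) hJi with h6 | h6
          · exfalso
            apply h6
            refine hcI.trans ?_
            exact_mod_cast up_anti (Finset.sup_mono hJ)
          · exact h6)
      have h7 := hn t _ (Finset.sup_mem (S t) (hbot t) (fun a ha b hb => hsup t a ha b hb) I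
        (fun j => w j t) (fun j hj => (h1 j (Finset.mem_range.1 (hI hj))).1 t)) hcI
      omega)
    (by
      have h8 : ∀ i ∈ range m, (1 / 2 - δ / 2) * (Fintype.card (L t) : ℝ) ≤ (up (w i t) : ℝ) := by
        intro i hi
        have h9 : (K : ℝ) * Fintype.card (L t) ≤
            2 * K * (up (w i t) : ℝ) + Fintype.card (L t) := by
          exact_mod_cast ht1 i hi
        have h10 : 1 ≤ K * δ := by
          rw [div_lt_iff₀ hδ0] at hK
          exact hK.le
        have h11 : (Fintype.card (L t) : ℝ) ≤ K * δ * Fintype.card (L t) :=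
          le_mul_of_one_le_left hNp.le h10
        have h12 : (2 * K) * ((1 / 2 - δ / 2) * (Fintype.card (L t) : ℝ)) ≤
            (2 * K) * (up (w i t) : ℝ) := by nlinarith
        exact le_of_mul_le_mul_left h12 (by positivity)
      have h13 := Finset.sum_le_sum h8
      rw [Finset.sum_const, Finset.card_range, nsmul_eq_mul] at h13
      refine le_trans ?_ h13
      have h14 : 2 * (n : ℝ) ≤ m * δ := by
        rw [div_lt_iff₀ hδ0] at hm
        exact hm.le
      have h15 : (1 / 2 - δ) * m + n ≤ m * (1 / 2 - δ / 2) := by nlinarith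
      calc ((1 / 2 - δ) * m + n) * (Fintype.card (L t) : ℝ)
          ≤ (m * (1 / 2 - δ / 2)) * (Fintype.card (L t) : ℝ) :=
            mul_le_mul_of_nonneg_right h15 hNp.le
        _ = m * ((1 / 2 - δ / 2) * (Fintype.card (L t) : ℝ)) := by ring)
    (le_max_right _ _)
  rw [mul_pow] at key
  have := le_of_mul_le_mul_right key (by positivity)
  linarith

end seq

end Pool.Agent.H75.BL.Freq
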