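import Mathlib
import Pool.Agent.H9.FM.NearHalf
import Pool.Agent.H75.BL.Freq

/-!
# Lattices with short chains of frequent joins of maximal join-irreducible elements
-/

universe u

namespace Pool.Agent.H75.BL.Freq

open Filter Finset

open scoped Classical

lemma exists_height {L : Type*} [Lattice L] [Finite L] (n : ℕ) (S : Set L) (P : L → Prop)
    (hP : ∀ a b, a ≤ b → P b → P a)
    (hlen : ∀ z : Fin (n + 2) → L, (∀ i, z i ∈ S ∧ P (z i)) → ¬ StrictMono z) :
    ∃ h : L → ℕ, (∀ a ∈ S, ∀ b ∈ S, a < b → h a < h b) ∧ ∀ a ∈ S, P a → h a ≤ n := by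
  have := Fintype.ofFinite L
  have hfin : ∀ a : S, Order.height a < ⊤ := by
    intro a
    refine lt_of_le_of_lt (b := ((Fintype.card S : ℕ) : ℕ∞)) ?_ (ENat.natCast_lt_top _)
    apply Order.height_le
    intro p _
    exact_mod_cast (LTSeries.length_lt_card p).le
  refine ⟨fun z => if hz : z ∈ S then (Order.height (⟨z, hz⟩ : S)).toNat else 0, ?_, ?_⟩
  · intro a ha b hb hab
    simp only [ha, hb, dif_pos]
    have h1 : (⟨a, ha⟩ : S) < ⟨b, hb⟩ := hab
    have h2 := Order.height_strictMono h1 (hfin _)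
    rw [← ENat.natCast_toNat (hfin ⟨a, ha⟩).ne, ← ENat.natCast_toNat (hfin ⟨b, hb⟩).ne] at h2
    exact_mod_cast h2
  · intro a ha hPa
    simp only [ha, dif_pos]
    apply ENat.toNat_le_of_le_natCast
    apply Order.height_le
    intro p hp
    by_contra hcon
    have hp' : n < p.length := by
      by_contra h
      exact hcon (by exact_mod_cast Nat.le_of_not_lt h)
    have hh : n + 2 ≤ p.length + 1 := by omega
    refine hlen (fun i => (p.toFun (Fin.castLE hh i) : L)) (fun i => ⟨Subtype.prop _, ?_⟩) ?_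
    · refine hP _ a ?_ hPa
      have h3 : p.toFun (Fin.castLE hh i) ≤ p.last :=
        p.strictMono.monotone (Fin.le_last _)
      rw [hp] at h3
      exact h3
    · intro i j hij
      exact p.strictMono (Fin.strictMono_castLE hh hij)

/-- the contradiction -/
theorem main (n : ℕ) (c : ℝ) (hc : c < (1 / 2) ^ (n + 1)) (L : ℕ → Type u)
    [∀ t, Lattice (L t)] [∀ t, Finite (L t)]
    (hlen : ∀ t, ∀ z : Fin (n + 2) → L t,
      (∀ i, (∃ B : Set (L t), (∀ b ∈ B, Maximal SupIrred b) ∧ IsLUB B (z i)) ∧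
        c * (Nat.card (L t) : ℝ) ≤ (Nat.card {x : L t // z i ≤ x} : ℝ)) → ¬ StrictMono z)
    (hcard : ∀ t, t < Nat.card (L t))
    (hj : ∀ t, ∀ j : L t, Maximal SupIrred j → Nat.card (L t) ≤ 2 * Nat.card {x : L t // j ≤ x}) :
    False := by
  have hne : ∀ t, Nonempty (L t) := fun t =>
    (Nat.card_pos_iff.1 (lt_of_le_of_lt (Nat.zero_le t) (hcard t))).1
  let _ : ∀ t, Fintype (L t) := fun t => Fintype.ofFinite (L t)
  let _ : ∀ t, BoundedOrder (L t) := fun t => by
    haveI := hne t
    exact Fintype.toBoundedOrder (L t)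
  let U : Ultrafilter ℕ := hyperfilter ℕ
  have hU : (U : Filter ℕ) ≤ atTop := Nat.hyperfilter_le_atTop
  have hup : ∀ t (z : L t), up z = Nat.card {x : L t // z ≤ x} := by
    intro t z
    rw [up, Nat.card_eq_fintype_card, Fintype.card_subtype]
  let S : ∀ t, Set (L t) := fun t =>
    {z | ∃ B : Set (L t), (∀ b ∈ B, Maximal SupIrred b) ∧ IsLUB B z}
  have hbot : ∀ t, ⊥ ∈ S t := fun t => ⟨∅, fun b hb => absurd hb (Set.notMem_empty b),
    isLUB_empty⟩
  have hsup : ∀ t, ∀ a ∈ S t, ∀ b ∈ S t, a ⊔ b ∈ S t := by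
    rintro t a ⟨A, hA1, hA2⟩ b ⟨B, hB1, hB2⟩
    refine ⟨A ∪ B, ?_, hA2.union hB2⟩
    rintro x (hx | hx)
    · exact hA1 x hx
    · exact hB1 x hx
  have hmax : ∀ t (b : L t), Maximal SupIrred b → b ∈ S t := by
    intro t b hb
    refine ⟨{b}, ?_, isLUB_singleton⟩
    intro x hx
    rw [Set.mem_singleton_iff] at hx
    rw [hx]
    exact hb
  have hex := fun t => exists_height n (S t)
    (fun z => c * Fintype.card (L t) ≤ (up z : ℝ))
    (fun a b hab hb => hb.trans (by exact_mod_cast up_anti hab))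
    (by
      intro z hz
      apply hlen t z
      intro i
      refine ⟨(hz i).1, ?_⟩
      have := (hz i).2
      rw [hup] at this
      rw [Nat.card_eq_fintype_card]
      exact this)
  choose h hs hn using hex
  obtain ⟨F, hFZ, hF⟩ := top U c hc S hbot hsup h hs hn
  -- eventually all maximal join-irreducibles are covered by `F`
  have hcov : ∀ᶠ t in (U : Filter ℕ), ∀ j : L t, Maximal SupIrred j → ∃ z ∈ F, j ≤ z t := by
    by_contra hbad
    have hbad' := Ultrafilter.eventually_not.2 hbad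
    have hex : ∀ t, ∃ w : L t, w ∈ S t ∧ (Fintype.card (L t) ≤ 2 * up w) ∧
        ((¬ ∀ j : L t, Maximal SupIrred j → ∃ z ∈ F, j ≤ z t) → ∀ z ∈ F, ¬ w ≤ z t) := by
      intro t
      by_cases hb : ∀ j : L t, Maximal SupIrred j → ∃ z ∈ F, j ≤ z t
      · refine ⟨⊥, hbot t, ?_, fun h' => absurd hb h'⟩
        simp only [up, bot_le, Finset.filter_true, Finset.card_univ]
        omega
      · push Not at hb
        obtain ⟨j, hj1, hj2⟩ := hb
        refine ⟨j, hmax t j hj1, ?_, fun _ => hj2⟩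
        rw [hup, ← Nat.card_eq_fintype_card]
        exact hj t j hj1
    choose w hw0 hw1 hw2 using hex
    have hwZ : Z U w := by
      intro k
      refine Filter.Eventually.of_forall (fun t => ?_)
      have := Nat.mul_le_mul_left k (hw1 t)
      calc k * Fintype.card (L t) ≤ k * (2 * up (w t)) := this
        _ = 2 * k * up (w t) := by ring
        _ ≤ _ := Nat.le_add_right _ _
    obtain ⟨z, hz, hz'⟩ := hF w ⟨hw0, hwZ⟩
    obtain ⟨t, ht1, ht2⟩ := (hbad'.and hz').exists
    exact hw2 t ht1 z hz ht2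
  -- all members of `F` are nearly above half
  have hF2 : ∀ᶠ t in (U : Filter ℕ), ∀ z ∈ F,
      (2 * (F.card + 1)) * Fintype.card (L t) ≤
        2 * (2 * (F.card + 1)) * up (z t) + Fintype.card (L t) := by
    rw [Filter.eventually_all_finset]
    intro z hz
    exact hFZ z hz (2 * (F.card + 1))
  have hN : ∀ᶠ t in (U : Filter ℕ), 2 ^ (2 * (F.card * (F.card + 1))) ≤ t :=
    hU (eventually_ge_atTop _)
  obtain ⟨t, h1, h2, h3⟩ := (hcov.and (hF2.and hN)).exists
  have key := Pool.Agent.H9.FM.nearHalf (L := L t) (ι := F) (fun z => z.1 t)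
    (fun j hj' => by
      obtain ⟨b, hjb, hb⟩ := (Set.toFinite {j : L t | SupIrred j}).exists_le_maximal hj'
      obtain ⟨z, hz, hbz⟩ := h1 b hb
      exact ⟨⟨z, hz⟩, hjb.trans hbz⟩)
    (fun z => by
      have h4 := h2 z.1 z.2
      rw [Fintype.card_coe, ← hup, Nat.card_eq_fintype_card]
      have h5 : (2 * ((F.card : ℝ) + 1)) * (Fintype.card (L t) : ℝ) ≤
          2 * (2 * ((F.card : ℝ) + 1)) * (up (z.1 t) : ℝ) + (Fintype.card (L t) : ℝ) := by
        exact_mod_cast h4
      have h6 : (0 : ℝ) < 2 * ((F.card : ℝ) + 1) := by positivity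
      have h7 : (Fintype.card (L t) : ℝ) / 2 * (1 - 1 / (2 * ((F.card : ℝ) + 1))) =
          ((2 * ((F.card : ℝ) + 1)) * (Fintype.card (L t) : ℝ) - (Fintype.card (L t) : ℝ)) /
            (2 * (2 * ((F.card : ℝ) + 1))) := by
        field_simp
      rw [h7, div_le_iff₀ (by positivity)]
      linarith)
  rw [Fintype.card_coe] at key
  exact absurd (hcard t) (not_lt.2 (key.trans h3))

/-- For every `n` and every `c < 2⁻⁽ⁿ⁺¹⁾` all but finitely many finite lattices without a chain of
`n + 2` joins `z` of maximal join-irreducible elements with `|[z, 1]| ≥ c |L|` have a maximal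
join-irreducible element below fewer than half of the elements. -/
theorem bounded_frequent (n : ℕ) (c : ℝ) (hc : c < (1 / 2) ^ (n + 1)) :
    ∃ C : ℕ, ∀ (L : Type u) [Lattice L] [Finite L],
    (∀ z : Fin (n + 2) → L,
      (∀ i, (∃ B : Set L, (∀ b ∈ B, Maximal SupIrred b) ∧ IsLUB B (z i)) ∧
        c * (Nat.card L : ℝ) ≤ (Nat.card {x : L // z i ≤ x} : ℝ)) → ¬ StrictMono z) →
    C < Nat.card L →
      ∃ a : L, Maximal SupIrred a ∧ 2 * Nat.card {x : L // a ≤ x} < Nat.card L := by
  by_contra hcon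
  push Not at hcon
  choose L i1 i2 hlen hcard hj using hcon
  refine main n c hc L (fun t z hz hmono => ?_) hcard hj
  exact hlen t z hz hmono

end Pool.Agent.H75.BL.Freq
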