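import Mathlib
import Pool.Agent.H9.FM.NearHalf
import Pool.Agent.H75.BL.Comp

/-!
# Lattices of bounded length: all but finitely many satisfy the Poonen form of Frankl's conjecture
-/

universe u

namespace Pool.Agent.H75.BL

open Filter Finset

open scoped Classical

lemma height_bound {L : Type*} [Lattice L] {n : ℕ} (hlen : ∀ c : Fin (n + 2) → L, ¬ StrictMono c)
    (a : L) : Order.height a ≤ (n : ℕ∞) := by
  apply Order.height_le
  intro p _
  by_contra hp
  have hp' : n < p.length := by
    by_contra h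
    exact hp (by exact_mod_cast Nat.le_of_not_lt h)
  have hh : n + 2 ≤ p.length + 1 := by omega
  exact hlen (fun i => p.toFun (Fin.castLE hh i))
    (p.strictMono.comp (Fin.strictMono_castLE hh))

/-- the contradiction -/
theorem main (n : ℕ) (L : ℕ → Type u) [∀ t, Lattice (L t)] [∀ t, Finite (L t)]
    (hlen : ∀ t, ∀ c : Fin (n + 2) → L t, ¬ StrictMono c)
    (hcard : ∀ t, t < Nat.card (L t))
    (hj : ∀ t, ∀ j : L t, SupIrred j → Nat.card (L t) ≤ 2 * Nat.card {x : L t // j ≤ x}) :
    False := by
  have hne : ∀ t, Nonempty (L t) := fun t =>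
    (Nat.card_pos_iff.1 (lt_of_le_of_lt (Nat.zero_le t) (hcard t))).1
  let _ : ∀ t, Fintype (L t) := fun t => Fintype.ofFinite (L t)
  let _ : ∀ t, BoundedOrder (L t) := fun t => by
    haveI := hne t
    exact Fintype.toBoundedOrder (L t)
  let U : Ultrafilter ℕ := hyperfilter ℕ
  have hU : (U : Filter ℕ) ≤ atTop := Nat.hyperfilter_le_atTop
  let h : ∀ t, L t → ℕ := fun t a => (Order.height a).toNat
  have hlt : ∀ t (a : L t), Order.height a < ⊤ := fun t a =>
    lt_of_le_of_lt (height_bound (hlen t) a) (ENat.natCast_lt_top n)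
  have hs : ∀ t a b, a < b → h t a < h t b := by
    intro t a b hab
    have := Order.height_strictMono hab (hlt t a)
    have e1 : ((h t a : ℕ) : ℕ∞) = Order.height a := ENat.natCast_toNat (hlt t a).ne
    have e2 : ((h t b : ℕ) : ℕ∞) = Order.height b := ENat.natCast_toNat (hlt t b).ne
    rw [← e1, ← e2] at this
    exact_mod_cast this
  have hn : ∀ t a, h t a ≤ n := by
    intro t a
    exact ENat.toNat_le_of_le_natCast (height_bound (hlen t) a)
  have hup : ∀ t (z : L t), up z = Nat.card {x : L t // z ≤ x} := by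
    intro t z
    rw [up, Nat.card_eq_fintype_card, Fintype.card_subtype]
  obtain ⟨F, hFZ, hF⟩ := good U h hs hn (n + 1) (fun t => ⊤)
    (Filter.Eventually.of_forall (fun t => Nat.lt_succ_of_le (hn t _)))
  -- eventually all join-irreducibles are covered by `F`
  have hcov : ∀ᶠ t in (U : Filter ℕ), ∀ j : L t, SupIrred j → ∃ z ∈ F, j ≤ z t := by
    by_contra hbad
    have hbad' := Ultrafilter.eventually_not.2 hbad
    have hex : ∀ t, ∃ w : L t, (Fintype.card (L t) ≤ 2 * up w) ∧
        ((¬ ∀ j : L t, SupIrred j → ∃ z ∈ F, j ≤ z t) → ∀ z ∈ F, ¬ w ≤ z t) := by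
      intro t
      by_cases hb : ∀ j : L t, SupIrred j → ∃ z ∈ F, j ≤ z t
      · refine ⟨⊥, ?_, fun h' => absurd hb h'⟩
        simp only [up, bot_le, Finset.filter_true, Finset.card_univ]
        omega
      · push Not at hb
        obtain ⟨j, hj1, hj2⟩ := hb
        refine ⟨j, ?_, fun _ => hj2⟩
        rw [hup, ← Nat.card_eq_fintype_card]
        exact hj t j hj1
    choose w hw1 hw2 using hex
    have hwZ : Z U w := by
      intro k
      refine Filter.Eventually.of_forall (fun t => ?_)
      have := Nat.mul_le_mul_left k (hw1 t)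
      calc k * Fintype.card (L t) ≤ k * (2 * up (w t)) := this
        _ = 2 * k * up (w t) := by ring
        _ ≤ _ := Nat.le_add_right _ _
    obtain ⟨z, hz, hz'⟩ := hF w hwZ (Filter.Eventually.of_forall (fun t => le_top))
    obtain ⟨t, ht1, ht2⟩ := (hbad'.and hz').exists
    exact hw2 t ht1 z hz ht2
  -- all members of `F` are nearly above half
  have hF2 : ∀ᶠ t in (U : Filter ℕ), ∀ z ∈ F,
      (2 * (F.card + 1)) * Fintype.card (L t) ≤
        2 * (2 * (F.card + 1)) * up (z t) + Fintype.card (L t) := by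
    rw [Filter.eventually_all_finset]
    intro z hz
    exact hFZ z hz (2 * (F.card + 1))
  have hN : ∀ᶠ t in (U : Filter ℕ), 2 ^ (2 * (F.card * (F.card + 1))) ≤ t :=
    hU (eventually_ge_atTop _)
  obtain ⟨t, h1, h2, h3⟩ := (hcov.and (hF2.and hN)).exists
  have key := Pool.Agent.H9.FM.nearHalf (L := L t) (ι := F) (fun z => z.1 t)
    (fun j hj' => by
      obtain ⟨z, hz, hjz⟩ := h1 j hj'
      exact ⟨⟨z, hz⟩, hjz⟩)
    (fun z => by
      have h4 := h2 z.1 z.2
      rw [Fintype.card_coe, ← hup, Nat.card_eq_fintype_card]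
      have h5 : (2 * ((F.card : ℝ) + 1)) * (Fintype.card (L t) : ℝ) ≤
          2 * (2 * ((F.card : ℝ) + 1)) * (up (z.1 t) : ℝ) + (Fintype.card (L t) : ℝ) := by
        exact_mod_cast h4
      have h6 : (0 : ℝ) < 2 * ((F.card : ℝ) + 1) := by positivity
      have h7 : (Fintype.card (L t) : ℝ) / 2 * (1 - 1 / (2 * ((F.card : ℝ) + 1))) =
          ((2 * ((F.card : ℝ) + 1)) * (Fintype.card (L t) : ℝ) - (Fintype.card (L t) : ℝ)) /
            (2 * (2 * ((F.card : ℝ) + 1))) := by
        field_simp
      rw [h7, div_le_iff₀ (by positivity)]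
      linarith)
  rw [Fintype.card_coe] at key
  exact absurd (hcard t) (not_lt.2 (key.trans h3))

/-- For every `n` all but finitely many finite lattices of length at most `n` have a
join-irreducible element below fewer than half of the elements. -/
theorem bounded_length (n : ℕ) : ∃ C : ℕ, ∀ (L : Type u) [Lattice L] [Finite L],
    (∀ c : Fin (n + 2) → L, ¬ StrictMono c) → C < Nat.card L →
      ∃ j : L, SupIrred j ∧ 2 * Nat.card {x : L // j ≤ x} < Nat.card L := by
  by_contra hcon
  push Not at hcon
  choose L i1 i2 hlen hcard hj using hcon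
  exact main n L hlen hcard hj

end Pool.Agent.H75.BL
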